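import Pool.Agent.Helper58.PB.StM

/-!
# Project PB, module BXG: the model on a box inside the windows
-/

set_option autoImplicit false

namespace Pool.Agent.Helper93.PB

open Finset ArithmeticFunction
open Pool.Agent.Helper58.PB
open Pool.Agent.Helper48.BK (ex th Sx Apx rr win AdN Admissible Solv Cl thd)
open Pool.Agent.Helper23.GK (cR)
open Pool.Agent.Helper23.MV (PCh PS ZF ZS mwt OKb ta Sc mm)

/-- members of `PS P` have conductor at most `P` -/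
private lemma r_le_of_mem_PS_BXG {P : ℝ} {c : PCh} (hc : c ∈ PS P) : (c.r : ℝ) ≤ P := by
  unfold PS at hc
  split_ifs at hc with h
  · simpa using hc
  · simp at hc

/-- the size of the weights -/
private lemma wt_norm_BXG (hM : StCrm) {P : ℝ} (Q n : ℕ) {c : PCh} (hc : c ∈ PS P) :
    ‖wt Q c n‖ ≤ P * Q := by
  have hr : (c.r : ℝ) ≤ P := r_le_of_mem_PS_BXG hc
  have hr0 : 0 < c.r := Nat.pos_of_ne_zero c.hr
  have hφ : 0 < Nat.totient c.r := Nat.totient_pos.mpr hr0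
  have hφ' : (1 : ℝ) ≤ (Nat.totient c.r : ℝ) := by exact_mod_cast hφ
  unfold wt
  rw [norm_mul, norm_mul]
  have h1 : ‖(c.r : ℂ) / (Nat.totient c.r : ℂ)‖ ≤ P := by
    rw [norm_div, Complex.norm_natCast, Complex.norm_natCast]
    calc (c.r : ℝ) / (Nat.totient c.r : ℝ) ≤ (c.r : ℝ) := div_le_self (by positivity) hφ'
      _ ≤ P := hr
  have h2 : ‖(starRingEnd ℂ) (c.ev n)‖ ≤ 1 := by
    rw [RCLike.norm_conj]
    exact DirichletCharacter.norm_le_one c.χ _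
  have h3 : ‖((sw Q c.r n : ℝ) : ℂ)‖ ≤ Q := by
    rw [Complex.norm_real, Real.norm_eq_abs]
    unfold sw
    calc |∑ s ∈ (Icc 1 Q).filter (fun s => Nat.Coprime s c.r),
          (moebius s : ℝ) / (Nat.totient s : ℝ) * ((cR s n : ℤ) : ℝ)|
        ≤ ∑ s ∈ (Icc 1 Q).filter (fun s => Nat.Coprime s c.r),
          |(moebius s : ℝ) / (Nat.totient s : ℝ) * ((cR s n : ℤ) : ℝ)| := abs_sum_le_sum_abs _ _
      _ ≤ ∑ s ∈ (Icc 1 Q).filter (fun s => Nat.Coprime s c.r), (1 : ℝ) := by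
          apply sum_le_sum
          intro s hs
          rw [mem_filter, mem_Icc] at hs
          have hs1 : 1 ≤ s := hs.1.1
          by_cases hsq : Squarefree s
          · have hcr := hM.2.2 s n hs1 hsq
            have hφs : 0 < Nat.totient s := Nat.totient_pos.mpr hs1
            have hφs' : (0 : ℝ) < (Nat.totient s : ℝ) := by exact_mod_cast hφs
            have hgd : Nat.totient (Nat.gcd s ((n : ℤ)).natAbs) ≤ Nat.totient s :=
              Nat.le_of_dvd hφs (Nat.totient_dvd_of_dvd (Nat.gcd_dvd_left _ _))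
            have hcr' : |((cR s n : ℤ) : ℝ)| ≤ (Nat.totient s : ℝ) := by
              have : |((cR s n : ℤ) : ℝ)| = ((|cR s n| : ℤ) : ℝ) := by push_cast; rfl
              rw [this, hcr]
              exact_mod_cast hgd
            have hμ : |(moebius s : ℝ)| ≤ 1 := by
              have := abs_moebius_le_one (n := s)
              exact_mod_cast this
            rw [abs_mul, abs_div, abs_of_pos hφs', div_mul_eq_mul_div, div_le_one hφs']
            calc |(moebius s : ℝ)| * |((cR s n : ℤ) : ℝ)| ≤ 1 * (Nat.totient s : ℝ) :=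
                  mul_le_mul hμ hcr' (abs_nonneg _) zero_le_one
              _ = (Nat.totient s : ℝ) := one_mul _
          · have : moebius s = 0 := moebius_eq_zero_of_not_squarefree hsq
            rw [this]
            simp
      _ = (((Icc 1 Q).filter (fun s => Nat.Coprime s c.r)).card : ℝ) := by simp
      _ ≤ Q := by
          have : ((Icc 1 Q).filter (fun s => Nat.Coprime s c.r)).card ≤ Q := by
            calc _ ≤ (Icc 1 Q).card := card_filter_le _ _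
              _ = Q := by simp
          exact_mod_cast this
  have hP0 : 0 ≤ P := le_trans (by positivity) hr
  calc ‖(c.r : ℂ) / (Nat.totient c.r : ℂ)‖ * ‖(starRingEnd ℂ) (c.ev n)‖ * ‖((sw Q c.r n : ℝ) : ℂ)‖
      ≤ P * 1 * Q := by
        apply mul_le_mul _ h3 (norm_nonneg _) (by positivity)
        exact mul_le_mul h1 h2 (norm_nonneg _) hP0
    _ = P * Q := by ring

/-- difference of products -/
private lemma prod_diff_BXG {B δ : ℝ} (hB : 0 ≤ B) {g₁ g₂ g₃ G₁ G₂ G₃ : ℂ}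
    (h2 : ‖g₂‖ ≤ B) (h3 : ‖g₃‖ ≤ B) (H1 : ‖G₁‖ ≤ B) (H2 : ‖G₂‖ ≤ B)
    (d1 : ‖g₁ - G₁‖ ≤ δ) (d2 : ‖g₂ - G₂‖ ≤ δ) (d3 : ‖g₃ - G₃‖ ≤ δ) :
    ‖g₁ * g₂ * g₃ - G₁ * G₂ * G₃‖ ≤ 3 * B ^ 2 * δ := by
  have hδ : 0 ≤ δ := le_trans (norm_nonneg _) d1
  have e : g₁ * g₂ * g₃ - G₁ * G₂ * G₃ =
      (g₁ - G₁) * g₂ * g₃ + G₁ * (g₂ - G₂) * g₃ + G₁ * G₂ * (g₃ - G₃) := by ring
  rw [e]
  calc ‖(g₁ - G₁) * g₂ * g₃ + G₁ * (g₂ - G₂) * g₃ + G₁ * G₂ * (g₃ - G₃)‖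
      ≤ ‖(g₁ - G₁) * g₂ * g₃‖ + ‖G₁ * (g₂ - G₂) * g₃‖ + ‖G₁ * G₂ * (g₃ - G₃)‖ := by
        refine le_trans (norm_add_le _ _) ?_
        gcongr
        exact norm_add_le _ _
    _ = ‖g₁ - G₁‖ * ‖g₂‖ * ‖g₃‖ + ‖G₁‖ * ‖g₂ - G₂‖ * ‖g₃‖ + ‖G₁‖ * ‖G₂‖ * ‖g₃ - G₃‖ := by
        simp only [norm_mul]
    _ ≤ δ * B * B + B * δ * B + B * B * δ := by gcongr
    _ = 3 * B ^ 2 * δ := by ring

/-- variation of the averages on a box -/
private lemma av_var_BXG (hA : StAvv) {P : ℝ} (hP : 2 ≤ P) (c : PCh) (L n n' N : ℕ)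
    (hN : P ^ 2000 ≤ (N : ℝ)) (hlog : Real.log N ≤ P) (hL : (N : ℝ) / (2 * P ^ 200) ≤ L)
    (hn : n ≤ N) (hn' : n' ≤ N) (hd : |(n : ℝ) - n'| ≤ N / P ^ 490) :
    ‖Av c L n - Av c L n'‖ ≤ 4 / P ^ 289 := by
  have hP0 : 0 < P := by linarith
  have hN0 : (0 : ℝ) < N := lt_of_lt_of_le (by positivity) hN
  have hLpos : (0 : ℝ) < L := lt_of_lt_of_le (by positivity) hL
  have hL1 : 1 ≤ L := by exact_mod_cast hLpos
  have key : ∀ m m' : ℕ, m ≤ m' → m' ≤ N → ((m' : ℝ) - m) ≤ N / P ^ 490 →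
      ‖Av c L m - Av c L m'‖ ≤ 4 / P ^ 289 := by
    intro m m' hmm hm' hdd
    have hlog' : Real.log m' ≤ P := by
      rcases Nat.eq_zero_or_pos m' with h0 | h0
      · subst h0; simp; linarith
      · exact le_trans (Real.log_le_log (by exact_mod_cast h0) (by exact_mod_cast hm')) hlog
    have hmm' : (0 : ℝ) ≤ (m' : ℝ) - m := by
      have : (m : ℝ) ≤ m' := by exact_mod_cast hmm
      linarith
    calc ‖Av c L m - Av c L m'‖ ≤ 2 * ((m' : ℝ) - m) * Real.log m' / L := hA c L m m' hL1 hmm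
      _ ≤ 2 * (N / P ^ 490) * P / L := by
          apply div_le_div_of_nonneg_right _ hLpos.le
          apply mul_le_mul _ hlog' (Real.log_natCast_nonneg _) (by positivity)
          linarith
      _ ≤ 2 * (N / P ^ 490) * P / ((N : ℝ) / (2 * P ^ 200)) := by
          apply div_le_div_of_nonneg_left (by positivity) (by positivity) hL
      _ = 4 / P ^ 289 := by
          field_simp
          ring
  rcases le_total n n' with h | h
  · apply key n n' h hn'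
    have := neg_abs_le ((n : ℝ) - n')
    linarith
  · rw [norm_sub_rev]
    apply key n' n h hn
    exact le_trans (le_abs_self _) hd

/-- the frozen model -/
private lemma frozen_BXG (hM : StCrm) (hC : StCps) {P : ℝ} (hP : 2 ≤ P) (Q L n : ℕ)
    (A : PCh → ℂ) (hQ : (Q : ℝ) ≤ P ^ 50)
    (h : ∀ c ∈ PS P, ‖Av c L n - A c‖ ≤ 4 / P ^ 289) :
    ‖Gc P Q L n - ∑ c ∈ PS P, wt Q c n * A c‖ ≤ 4 / P ^ 236 := by
  have hP0 : 0 < P := by linarith
  unfold Gc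
  rw [← sum_sub_distrib]
  calc ‖∑ c ∈ PS P, (wt Q c n * Av c L n - wt Q c n * A c)‖
      ≤ ∑ c ∈ PS P, ‖wt Q c n * Av c L n - wt Q c n * A c‖ := norm_sum_le _ _
    _ ≤ ∑ c ∈ PS P, (P * P ^ 50 * (4 / P ^ 289)) := by
        apply sum_le_sum
        intro c hc
        rw [← mul_sub, norm_mul]
        apply mul_le_mul _ (h c hc) (norm_nonneg _) (by positivity)
        exact le_trans (wt_norm_BXG hM Q n hc) (by gcongr)
    _ = ((PS P).card : ℝ) * (P * P ^ 50 * (4 / P ^ 289)) := by simp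
    _ ≤ P ^ 2 * (P * P ^ 50 * (4 / P ^ 289)) := by
        gcongr
        exact hC.1 P (by linarith)
    _ = 4 / P ^ 236 := by
        field_simp

/-- the size of a model -/
private lemma size_BXG (hM : StCrm) {P : ℝ} (hP : 2 ≤ P) (Q n : ℕ)
    (A : PCh → ℂ) (hQ : (Q : ℝ) ≤ P ^ 50) (h : ∑ c ∈ PS P, ‖A c‖ ≤ 3) :
    ‖∑ c ∈ PS P, wt Q c n * A c‖ ≤ 3 * P ^ 51 := by
  have hP0 : 0 < P := by linarith
  calc ‖∑ c ∈ PS P, wt Q c n * A c‖ ≤ ∑ c ∈ PS P, ‖wt Q c n * A c‖ := norm_sum_le _ _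
    _ ≤ ∑ c ∈ PS P, P ^ 51 * ‖A c‖ := by
        apply sum_le_sum
        intro c hc
        rw [norm_mul]
        apply mul_le_mul_of_nonneg_right _ (norm_nonneg _)
        calc ‖wt Q c n‖ ≤ P * Q := wt_norm_BXG hM Q n hc
          _ ≤ P * P ^ 50 := by gcongr
          _ = P ^ 51 := by ring
    _ = P ^ 51 * ∑ c ∈ PS P, ‖A c‖ := by rw [mul_sum]
    _ ≤ P ^ 51 * 3 := by gcongr
    _ = 3 * P ^ 51 := by ring

/-- number of pairs of a box -/
private lemma card_BXG (hP : StBxp) (a b c i I j J : ℕ) (d : ℤ) (ha : 1 ≤ a) (hb : 1 ≤ b)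
    (hc : 1 ≤ c) (hg : Nat.gcd a (Nat.gcd b c) = 1)
    (hpos : ∀ n m : ℕ, i < n → n ≤ i + I → j < m → m ≤ j + J → d < a * n + b * m) :
    ((Bx a b c d i I j J).card : ℝ) ≤ (I : ℝ) * J / c + 6 * (I + J + 1) := by
  have h := hP a b c 1 i I j J d (fun _ _ _ => 1) 1 ha hb hc le_rfl hg zero_le_one
    (fun _ _ _ => by simp) (fun _ _ _ _ _ _ _ _ _ => rfl) hpos
  have e1 : En a b c d 1 (fun _ _ _ => 1) = 1 := by
    unfold En Cl
    simp
  rw [e1] at h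
  have e2 : ∑ v ∈ Bx a b c d i I j J, (1 : ℂ) = (((Bx a b c d i I j J).card : ℝ) : ℂ) := by
    simp
  rw [e2] at h
  have e3 : (((Bx a b c d i I j J).card : ℝ) : ℂ) - ((I : ℂ) * J / c) * 1 =
      ((((Bx a b c d i I j J).card : ℝ) - (I : ℝ) * J / c : ℝ) : ℂ) := by
    push_cast
    ring
  rw [e3, Complex.norm_real, Real.norm_eq_abs] at h
  have h' := (abs_le.mp h).2
  simp only [Nat.cast_one, one_pow, mul_one] at h'
  linarith

/-- the point estimate in a box -/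
private lemma point_BXG (hA : StAvv) (hR : StRlg) (hC : StCps) (hM : StCrm) {P : ℝ} (hP : 2 ≤ P)
    (Q L N n n₀ : ℕ) (hQ : (Q : ℝ) ≤ P ^ 50) (hN : P ^ 2000 ≤ (N : ℝ)) (hlog : Real.log N ≤ P)
    (hL : (N : ℝ) / (2 * P ^ 200) ≤ L)
    (h3 : ∀ n : ℕ, (N : ℝ) / P ≤ n → n ≤ 2 * N → ∑ e ∈ PS P, ‖Av e L n‖ ≤ 3)
    (hn0 : (N : ℝ) / P ≤ n₀) (hn : n ≤ N) (hn' : n₀ ≤ N)
    (hd : |(n : ℝ) - n₀| ≤ N / P ^ 490) :
    ((Gr P Q L n : ℝ) : ℂ) = Gc P Q L n ∧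
    ‖Gc P Q L n - ∑ e ∈ PS P, wt Q e n * Av e L n₀‖ ≤ 4 / P ^ 236 ∧
    ‖∑ e ∈ PS P, wt Q e n * Av e L n₀‖ ≤ 3 * P ^ 51 ∧ ‖Gc P Q L n‖ ≤ 4 * P ^ 51 := by
  have hP0 : 0 < P := by linarith
  have k1 : ((Gr P Q L n : ℝ) : ℂ) = Gc P Q L n := by
    apply Complex.ext
    · simp [Gr]
    · rw [Complex.ofReal_im]
      exact (hR.2 P Q L n n).symm
  have k2 : ‖Gc P Q L n - ∑ e ∈ PS P, wt Q e n * Av e L n₀‖ ≤ 4 / P ^ 236 :=
    frozen_BXG hM hC hP Q L n (fun e => Av e L n₀) hQ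
      (fun c _ => av_var_BXG hA hP c L n n₀ N hN hlog hL hn hn' hd)
  have k3 : ‖∑ e ∈ PS P, wt Q e n * Av e L n₀‖ ≤ 3 * P ^ 51 :=
    size_BXG hM hP Q n (fun e => Av e L n₀) hQ (h3 n₀ hn0 (by omega))
  refine ⟨k1, k2, k3, ?_⟩
  have h4 : 4 / P ^ 236 ≤ P ^ 51 := by
    rw [div_le_iff₀ (by positivity)]
    calc (4 : ℝ) = 2 ^ 2 := by norm_num
      _ ≤ P ^ 2 := by gcongr
      _ ≤ P ^ 287 := pow_le_pow_right₀ (by linarith) (by norm_num)
      _ = P ^ 51 * P ^ 236 := by rw [← pow_add]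
  calc ‖Gc P Q L n‖ = ‖(Gc P Q L n - ∑ e ∈ PS P, wt Q e n * Av e L n₀) +
        ∑ e ∈ PS P, wt Q e n * Av e L n₀‖ := by rw [sub_add_cancel]
    _ ≤ 4 / P ^ 236 + 3 * P ^ 51 := le_trans (norm_add_le _ _) (add_le_add k2 k3)
    _ ≤ 4 * P ^ 51 := by linarith

/-- the final numerical estimate -/
private lemma num_BXG {C P t τ : ℝ} {Q I J c : ℕ} (hC : 1 ≤ C) (hP : 400 + 4 * C ^ 2 ≤ P)
    (hQ50 : (Q : ℝ) ≤ P ^ 50) (hQ49 : P ^ 49 ≤ Q) (hτ0 : 0 ≤ τ) (hτ : τ ≤ P) {N S F : ℝ}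
    (hN : N ≤ (I : ℝ) * J / c + 6 * (I + J + 1))
    (hS : F - N * (1 / P ^ 100) ≤ S)
    (hF : (I : ℝ) * J / c * (t ^ 3 - C * P ^ 14 * (Q : ℝ) ^ (-(1 / 2) : ℝ) * τ) -
      200 * P ^ 9 * (Q : ℝ) ^ 9 * (I + J + 1) ≤ F) :
    (I : ℝ) * J / c * (t ^ 3 - P ^ (-9 : ℝ)) - P ^ 460 * (I + J + 1) ≤ S := by
  have hP400 : 400 ≤ P := by nlinarith
  have hP0 : 0 < P := by linarith
  have hP1 : 1 ≤ P := by linarith
  set E : ℝ := (I : ℝ) * J / c with hE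
  have hE0 : 0 ≤ E := by positivity
  have hIJ : (0 : ℝ) ≤ (I : ℝ) + J + 1 := by positivity
  -- first numerical fact
  have a1 : P ^ (-9 : ℝ) = 1 / P ^ 9 := by
    rw [show (-9 : ℝ) = -((9 : ℕ) : ℝ) by norm_num, Real.rpow_neg hP0.le, Real.rpow_natCast]
    simp
  have hQ0 : (0 : ℝ) < Q := lt_of_lt_of_le (by positivity) hQ49
  have a2 : (Q : ℝ) ^ (-(1 / 2) : ℝ) ≤ 1 / (P ^ 24 * √P) := by
    rw [Real.rpow_neg hQ0.le, ← Real.sqrt_eq_rpow, one_div]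
    apply inv_anti₀ (by positivity)
    have : P ^ 24 * √P = √(P ^ 49) := by
      rw [show P ^ 49 = (P ^ 24) ^ 2 * P by ring, Real.sqrt_mul (by positivity),
        Real.sqrt_sq (by positivity)]
    rw [this]
    exact Real.sqrt_le_sqrt hQ49
  have a3 : 2 * C ≤ √P := by
    apply Real.le_sqrt_of_sq_le
    nlinarith
  have hsq0 : 0 < √P := Real.sqrt_pos.mpr hP0
  have a4 : C * P ^ 14 * (Q : ℝ) ^ (-(1 / 2) : ℝ) * τ ≤ 1 / (2 * P ^ 9) := by
    calc C * P ^ 14 * (Q : ℝ) ^ (-(1 / 2) : ℝ) * τ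
        ≤ C * P ^ 14 * (1 / (P ^ 24 * √P)) * P := by gcongr
      _ = C / √P * (1 / P ^ 9) := by
          field_simp
      _ ≤ (1 / 2) * (1 / P ^ 9) := by
          apply mul_le_mul_of_nonneg_right _ (by positivity)
          rw [div_le_iff₀ hsq0]
          linarith
      _ = 1 / (2 * P ^ 9) := by
          field_simp
  have a5 : 1 / P ^ 100 ≤ 1 / (2 * P ^ 9) := by
    apply one_div_le_one_div_of_le (by positivity)
    calc 2 * P ^ 9 ≤ P * P ^ 9 := by gcongr; linarith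
      _ = P ^ 10 := by ring
      _ ≤ P ^ 100 := pow_le_pow_right₀ hP1 (by norm_num)
  have a6 : 1 / (2 * P ^ 9) + 1 / (2 * P ^ 9) = 1 / P ^ 9 := by
    field_simp
    norm_num
  have a7 : 200 * P ^ 9 * (Q : ℝ) ^ 9 ≤ 1 / 2 * P ^ 460 := by
    calc 200 * P ^ 9 * (Q : ℝ) ^ 9 ≤ 200 * P ^ 9 * (P ^ 50) ^ 9 := by gcongr
      _ = 200 * P ^ 459 := by ring
      _ ≤ 1 / 2 * P * P ^ 459 := by
          apply mul_le_mul_of_nonneg_right _ (by positivity)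
          linarith
      _ = 1 / 2 * P ^ 460 := by ring
  have a8 : 6 * (1 / P ^ 100) ≤ 1 / 2 * P ^ 460 := by
    have b1 : 1 / P ^ 100 ≤ 1 := by
      rw [div_le_one (by positivity)]
      exact one_le_pow₀ hP1
    have b2 : P ≤ P ^ 460 := le_self_pow₀ hP1 (by norm_num)
    linarith
  have h1 : N * (1 / P ^ 100) ≤ (E + 6 * (I + J + 1)) * (1 / P ^ 100) := by
    apply mul_le_mul_of_nonneg_right hN (by positivity)
  have h2 : E * (1 / P ^ 100) ≤ E * (1 / (2 * P ^ 9)) := mul_le_mul_of_nonneg_left a5 hE0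
  have h3 : E * (C * P ^ 14 * (Q : ℝ) ^ (-(1 / 2) : ℝ) * τ) ≤ E * (1 / (2 * P ^ 9)) :=
    mul_le_mul_of_nonneg_left a4 hE0
  have h4 : 200 * P ^ 9 * (Q : ℝ) ^ 9 * ((I : ℝ) + J + 1) ≤ 1 / 2 * P ^ 460 * (I + J + 1) :=
    mul_le_mul_of_nonneg_right a7 hIJ
  have h5 : 6 * (1 / P ^ 100) * ((I : ℝ) + J + 1) ≤ 1 / 2 * P ^ 460 * (I + J + 1) :=
    mul_le_mul_of_nonneg_right a8 hIJ
  have h6 : E * (1 / (2 * P ^ 9)) + E * (1 / (2 * P ^ 9)) = E * (1 / P ^ 9) := by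
    rw [← mul_add, a6]
  rw [a1]
  have e1 : (E + 6 * ((I : ℝ) + J + 1)) * (1 / P ^ 100) =
      E * (1 / P ^ 100) + 6 * (1 / P ^ 100) * ((I : ℝ) + J + 1) := by ring
  have e2 : E * (t ^ 3 - 1 / P ^ 9) = E * t ^ 3 - E * (1 / P ^ 9) := by ring
  have e3 : E * (t ^ 3 - C * P ^ 14 * (Q : ℝ) ^ (-(1 / 2) : ℝ) * τ) =
      E * t ^ 3 - E * (C * P ^ 14 * (Q : ℝ) ^ (-(1 / 2) : ℝ) * τ) := by ring
  rw [e1] at h1
  rw [e3] at hF
  rw [e2]
  linarith

/-- first and second variable -/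
private lemma var12_BXG {P : ℝ} {a h X i I n : ℕ} (hP : 2 ≤ P) (ha : 1 ≤ a) (hX1 : 28 * h ≤ a * X)
    (hX2 : (a : ℝ) * X ≤ P * h) (hi : 8 * h < a * (i + 1)) (hiI : a * (i + I) ≤ 9 * h)
    (hI0 : 0 < I) (hI : (I : ℝ) ≤ X / P ^ 500) (hn : i < n) (hn' : n ≤ i + I) :
    (X : ℝ) / P ≤ ((i + 1 : ℕ) : ℝ) ∧ i + 1 ≤ X ∧ n ≤ X ∧
      |(n : ℝ) - ((i + 1 : ℕ) : ℝ)| ≤ X / P ^ 490 := by
  have hP0 : 0 < P := by linarith
  have haR : (0 : ℝ) < a := by exact_mod_cast ha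
  have hX : i + I ≤ X := by
    have : a * (i + I) ≤ a * X := by omega
    exact Nat.le_of_mul_le_mul_left this ha
  refine ⟨?_, by omega, by omega, ?_⟩
  · rw [div_le_iff₀ hP0]
    have hi' : (8 : ℝ) * h < a * ((i + 1 : ℕ) : ℝ) := by exact_mod_cast hi
    have hh : (0 : ℝ) ≤ h := by positivity
    have h1 : (a : ℝ) * X ≤ a * (((i + 1 : ℕ) : ℝ) * P) := by
      calc (a : ℝ) * X ≤ P * h := hX2
        _ ≤ P * (a * ((i + 1 : ℕ) : ℝ)) := by
            apply mul_le_mul_of_nonneg_left _ hP0.le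
            linarith
        _ = a * (((i + 1 : ℕ) : ℝ) * P) := by ring
    exact le_of_mul_le_mul_left h1 haR
  · have h1 : |(n : ℝ) - ((i + 1 : ℕ) : ℝ)| ≤ I := by
      rw [abs_le]
      have h2 : (i : ℝ) + 1 ≤ n := by exact_mod_cast hn
      have h3 : (n : ℝ) ≤ i + I := by exact_mod_cast hn'
      have h4 : (1 : ℝ) ≤ I := by exact_mod_cast hI0
      push_cast
      constructor <;> linarith
    calc |(n : ℝ) - ((i + 1 : ℕ) : ℝ)| ≤ I := h1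
      _ ≤ X / P ^ 500 := hI
      _ ≤ X / P ^ 490 := by
          apply div_le_div_of_nonneg_left (by positivity) (by positivity)
          exact pow_le_pow_right₀ (by linarith) (by norm_num)

/-- third variable: bounds for a point -/
private lemma var3_BXG {P : ℝ} {c h Z l : ℕ} {D : ℤ} (hP : 2 ≤ P) (hc : 1 ≤ c)
    (hZ1 : 28 * h ≤ c * Z) (hZ2 : (c : ℝ) * Z ≤ P * h) (hZ3 : P ^ 2000 ≤ (Z : ℝ))
    (hD1 : (6 : ℤ) * h < D) (hD2 : D ≤ 28 * h) (hl1 : (c : ℤ) * l ≤ D) (hl2 : D < c * l + c) :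
    (Z : ℝ) / P ≤ (l : ℝ) ∧ l ≤ Z := by
  have hP0 : 0 < P := by linarith
  have hcR : (0 : ℝ) < c := by exact_mod_cast hc
  constructor
  · rw [div_le_iff₀ hP0]
    have hch : (c : ℝ) ≤ h := by
      have h1 : (c : ℝ) * P ^ 2000 ≤ P * h := le_trans (mul_le_mul_of_nonneg_left hZ3 hcR.le) hZ2
      have h2 : (c : ℝ) * P ≤ (c : ℝ) * P ^ 2000 :=
        mul_le_mul_of_nonneg_left (le_self_pow₀ (by linarith) (by norm_num)) hcR.le
      have h3 : (c : ℝ) * P ≤ h * P := by linarith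
      exact le_of_mul_le_mul_right h3 hP0
    have hl2' : (D : ℝ) < c * l + c := by exact_mod_cast hl2
    have hD1' : (6 : ℝ) * h < D := by exact_mod_cast hD1
    have hh : (0 : ℝ) ≤ h := by positivity
    have h1 : (c : ℝ) * Z ≤ c * ((l : ℝ) * P) := by
      calc (c : ℝ) * Z ≤ P * h := hZ2
        _ ≤ P * (c * (l : ℝ)) := by
            apply mul_le_mul_of_nonneg_left _ hP0.le
            linarith
        _ = c * ((l : ℝ) * P) := by ring
    exact le_of_mul_le_mul_left h1 hcR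
  · have h1 : (c : ℤ) * l ≤ c * Z := by
      have : ((28 * h : ℕ) : ℤ) ≤ ((c * Z : ℕ) : ℤ) := by exact_mod_cast hZ1
      push_cast at this
      linarith
    have h2 : c * l ≤ c * Z := by exact_mod_cast h1
    exact Nat.le_of_mul_le_mul_left h2 hc

/-- third variable: the distance -/
private lemma dist3_BXG {P : ℝ} {a b c h X Y Z i I j J l l₀ n m : ℕ} {d : ℤ} (hP : 2 ≤ P)
    (ha : 1 ≤ a) (hb : 1 ≤ b) (hc : 1 ≤ c)
    (hX2 : (a : ℝ) * X ≤ P * h) (hY2 : (b : ℝ) * Y ≤ P * h)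
    (hZ1 : 28 * h ≤ c * Z) (hZ3 : P ^ 2000 ≤ (Z : ℝ))
    (hI : (I : ℝ) ≤ X / P ^ 500) (hJ : (J : ℝ) ≤ Y / P ^ 500)
    (hI0 : 0 < I) (hJ0 : 0 < J)
    (hn : i < n) (hn' : n ≤ i + I) (hm : j < m) (hm' : m ≤ j + J)
    (hl : (c : ℤ) * l = a * n + b * m - d)
    (hl1 : (c : ℤ) * l₀ ≤ a * (i + 1) + b * (j + 1) - d)
    (hl2 : (a * (i + 1) + b * (j + 1) - d : ℤ) < c * l₀ + c) :
    |(l : ℝ) - l₀| ≤ Z / P ^ 490 := by
  have hP0 : 0 < P := by linarith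
  have hP1 : 1 ≤ P := by linarith
  have haR : (0 : ℝ) < a := by exact_mod_cast ha
  have hbR : (0 : ℝ) < b := by exact_mod_cast hb
  have hcR : (0 : ℝ) < c := by exact_mod_cast hc
  have k1 : (a : ℝ) * I ≤ h / P ^ 499 := by
    calc (a : ℝ) * I ≤ a * (X / P ^ 500) := by gcongr
      _ = a * X / P ^ 500 := by ring
      _ ≤ P * h / P ^ 500 := by gcongr
      _ = h / P ^ 499 := by
          field_simp
  have k2 : (b : ℝ) * J ≤ h / P ^ 499 := by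
    calc (b : ℝ) * J ≤ b * (Y / P ^ 500) := by gcongr
      _ = b * Y / P ^ 500 := by ring
      _ ≤ P * h / P ^ 500 := by gcongr
      _ = h / P ^ 499 := by
          field_simp
  have hZ1' : (28 : ℝ) * h ≤ c * Z := by exact_mod_cast hZ1
  have k3 : (h : ℝ) / P ^ 499 ≤ c * (Z / P ^ 490) / 28 := by
    have hh : (h : ℝ) ≤ c * Z / 28 := by linarith
    calc (h : ℝ) / P ^ 499 ≤ h / P ^ 490 := by
          apply div_le_div_of_nonneg_left (by positivity) (by positivity)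
          exact pow_le_pow_right₀ hP1 (by norm_num)
      _ ≤ (c * Z / 28) / P ^ 490 := by gcongr
      _ = c * (Z / P ^ 490) / 28 := by ring
  have k4 : (1 : ℝ) ≤ (Z / P ^ 490) / 2 := by
    rw [le_div_iff₀ (by norm_num), le_div_iff₀ (by positivity)]
    calc 1 * 2 * P ^ 490 ≤ P * P ^ 490 := by
          apply mul_le_mul_of_nonneg_right _ (by positivity)
          linarith
      _ = P ^ 491 := by ring
      _ ≤ P ^ 2000 := pow_le_pow_right₀ hP1 (by norm_num)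
      _ ≤ Z := hZ3
  have hlR : (c : ℝ) * l = a * n + b * m - d := by exact_mod_cast hl
  have hl1R : (c : ℝ) * l₀ ≤ a * (i + 1) + b * (j + 1) - d := by exact_mod_cast hl1
  have hl2R : (a * (i + 1) + b * (j + 1) - d : ℝ) < c * l₀ + c := by exact_mod_cast hl2
  have n1 : (i : ℝ) + 1 ≤ n := by exact_mod_cast hn
  have n2 : (n : ℝ) ≤ i + I := by exact_mod_cast hn'
  have m1 : (j : ℝ) + 1 ≤ m := by exact_mod_cast hm
  have m2 : (m : ℝ) ≤ j + J := by exact_mod_cast hm'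
  have p1 : (0 : ℝ) ≤ a * ((n : ℝ) - (i + 1)) := mul_nonneg haR.le (by linarith)
  have p2 : (0 : ℝ) ≤ b * ((m : ℝ) - (j + 1)) := mul_nonneg hbR.le (by linarith)
  have p3 : (a : ℝ) * ((n : ℝ) - (i + 1)) ≤ a * I := by
    apply mul_le_mul_of_nonneg_left _ haR.le
    linarith
  have p4 : (b : ℝ) * ((m : ℝ) - (j + 1)) ≤ b * J := by
    apply mul_le_mul_of_nonneg_left _ hbR.le
    linarith
  have k5 : (c : ℝ) * 1 ≤ c * ((Z / P ^ 490) / 2) := mul_le_mul_of_nonneg_left k4 hcR.le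
  have k6 : |(c : ℝ) * ((l : ℝ) - l₀)| ≤ c * (Z / P ^ 490) := by
    have hz : (0 : ℝ) ≤ c * (Z / P ^ 490) := by positivity
    rw [abs_le]
    constructor
    · nlinarith
    · nlinarith
  rw [abs_mul, abs_of_pos hcR] at k6
  exact le_of_mul_le_mul_left k6 hcR

/-- BXG -/
theorem hBxg (hF : StBxf) (hB : StBxp) (hA : StAvv) (hR : StRlg) (hC : StCps) (hM : StCrm) :
    StBxg := by
  obtain ⟨C, hC1, hF⟩ := hF
  refine ⟨400 + 4 * C ^ 2, by nlinarith, ?_⟩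
  intro P t a b c Q h X Y Z L₁ L₂ L₃ i I j J d hP0 ht ha hb hc hAd hd hQ50 hQ49 hτ hX1 hX2 hY1 hY2
    hZ1 hZ2 hX3 hY3 hZ3 hlX hlY hlZ hL1 hL2 hL3 H1 H2 H3 hi hiI hj hjJ hI hJ
  have hP400 : 400 ≤ P := by nlinarith
  have hP2 : 2 ≤ P := by linarith
  have hP1 : 1 ≤ P := by linarith
  have hPpos : 0 < P := by linarith
  rcases Nat.eq_zero_or_pos I with hI0 | hI0
  · subst hI0
    have e : Bx a b c d i 0 j J = ∅ := by unfold Bx; simp
    rw [e]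
    simp only [sum_empty, Nat.cast_zero, zero_mul, zero_div, zero_sub]
    have : (0 : ℝ) ≤ P ^ 460 * (0 + J + 1) := by positivity
    linarith
  rcases Nat.eq_zero_or_pos J with hJ0 | hJ0
  · subst hJ0
    have e : Bx a b c d i I j 0 = ∅ := by unfold Bx; simp
    rw [e]
    simp only [sum_empty, Nat.cast_zero, mul_zero, zero_mul, zero_div, zero_sub]
    have : (0 : ℝ) ≤ P ^ 460 * (I + 0 + 1) := by positivity
    linarith
  have hdd := abs_le.mp hd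
  have win1 : ∀ n : ℕ, i < n → n ≤ i + I → (8 : ℤ) * h < a * n ∧ (a : ℤ) * n ≤ 9 * h := by
    intro n hn hn'
    have h1 : a * (i + 1) ≤ a * n := Nat.mul_le_mul_left _ hn
    have h2 : a * n ≤ a * (i + I) := Nat.mul_le_mul_left _ hn'
    have h3 : 8 * h < a * n := by omega
    have h4 : a * n ≤ 9 * h := by omega
    exact ⟨by exact_mod_cast h3, by exact_mod_cast h4⟩
  have win2 : ∀ m : ℕ, j < m → m ≤ j + J → (8 : ℤ) * h < b * m ∧ (b : ℤ) * m ≤ 9 * h := by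
    intro n hn hn'
    have h1 : b * (j + 1) ≤ b * n := Nat.mul_le_mul_left _ hn
    have h2 : b * n ≤ b * (j + J) := Nat.mul_le_mul_left _ hn'
    have h3 : 8 * h < b * n := by omega
    have h4 : b * n ≤ 9 * h := by omega
    exact ⟨by exact_mod_cast h3, by exact_mod_cast h4⟩
  have hpos : ∀ n m : ℕ, i < n → n ≤ i + I → j < m → m ≤ j + J → d < a * n + b * m := by
    intro n m hn hn' hm hm'
    have h1 := (win1 n hn hn').1
    have h2 := (win2 m hm hm').1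
    have h3 : (0 : ℤ) ≤ h := by positivity
    linarith
  -- the base point in the third variable
  have hc0 : (0 : ℤ) < c := by exact_mod_cast hc
  set D₀ : ℤ := a * (i + 1) + b * (j + 1) - d with hD₀
  have w1 := win1 (i + 1) (by omega) (by omega)
  have w2 := win2 (j + 1) (by omega) (by omega)
  push_cast at w1 w2
  have hh0 : (0 : ℤ) ≤ h := by positivity
  have hD1 : (6 : ℤ) * h < D₀ := by linarith
  have hD2 : D₀ ≤ 28 * h := by linarith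
  have hl0 : 0 ≤ D₀ / c := Int.ediv_nonneg (by linarith) hc0.le
  set l₀ : ℕ := (D₀ / c).toNat with hl₀
  have hl0' : (l₀ : ℤ) = D₀ / c := Int.toNat_of_nonneg hl0
  have hl1 : (c : ℤ) * l₀ ≤ D₀ := by rw [hl0']; exact Int.mul_ediv_self_le hc0.ne'
  have hl2 : D₀ < c * l₀ + c := by rw [hl0']; exact Int.lt_mul_ediv_self_add hc0
  obtain ⟨z1, z2⟩ := var3_BXG hP2 hc hZ1 hZ2 hZ3 hD1 hD2 hl1 hl2
  obtain ⟨x1, x2, -, -⟩ := var12_BXG hP2 ha hX1 hX2 hi hiI hI0 hI (Nat.lt_succ_self i)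
    (show i + 1 ≤ i + I by omega)
  obtain ⟨y1, y2, -, -⟩ := var12_BXG hP2 hb hY1 hY2 hj hjJ hJ0 hJ (Nat.lt_succ_self j)
    (show j + 1 ≤ j + J by omega)
  have hPQ : P ≤ Q := by
    calc P ≤ P ^ 49 := le_self_pow₀ hP1 (by norm_num)
      _ ≤ Q := hQ49
  have hFz := hF P t a b c Q i I j J d (fun e => Av e L₁ (i + 1)) (fun e => Av e L₂ (j + 1))
    (fun e => Av e L₃ l₀) hP1 hPQ ht ha hb hc hAd
    (H1 (i + 1) x1 (by exact_mod_cast (by omega : i + 1 ≤ 2 * X))).1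
    (H2 (j + 1) y1 (by exact_mod_cast (by omega : j + 1 ≤ 2 * Y))).1
    (H3 l₀ z1 (by exact_mod_cast (by omega : l₀ ≤ 2 * Z))).1 hpos
    (fun u hu => ⟨⟨(H1 (i + 1) x1 (by exact_mod_cast (by omega : i + 1 ≤ 2 * X))).2 u hu, hR.1 P L₁ (i + 1) u⟩,
      ⟨(H2 (j + 1) y1 (by exact_mod_cast (by omega : j + 1 ≤ 2 * Y))).2 u hu, hR.1 P L₂ (j + 1) u⟩,
      ⟨(H3 l₀ z1 (by exact_mod_cast (by omega : l₀ ≤ 2 * Z))).2 u hu, hR.1 P L₃ l₀ u⟩⟩)
  -- pointwise comparison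
  have hpt : ∀ v ∈ Bx a b c d i I j J,
      ((∑ e ∈ PS P, wt Q e v.1 * Av e L₁ (i + 1)) * (∑ e ∈ PS P, wt Q e v.2 * Av e L₂ (j + 1)) *
        (∑ e ∈ PS P, wt Q e (thd a b c d v).toNat * Av e L₃ l₀)).re - 1 / P ^ 100 ≤
      Gr P Q L₁ v.1 * Gr P Q L₂ v.2 * Gr P Q L₃ (thd a b c d v).toNat := by
    intro v hv
    unfold Bx at hv
    rw [mem_filter, mem_product, mem_Ioc, mem_Ioc] at hv
    obtain ⟨⟨⟨hv1, hv2⟩, hv3, hv4⟩, hv5⟩ := hv
    have u1 := win1 v.1 hv1 hv2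
    have u2 := win2 v.2 hv3 hv4
    have hw : (c : ℤ) * thd a b c d v = a * v.1 + b * v.2 - d := by
      unfold thd
      exact Int.mul_ediv_cancel' hv5
    have hw0 : 0 ≤ thd a b c d v := by
      unfold thd
      exact Int.ediv_nonneg (by linarith) hc0.le
    set l : ℕ := (thd a b c d v).toNat with hl
    have hl' : (l : ℤ) = thd a b c d v := Int.toNat_of_nonneg hw0
    have hcl : (c : ℤ) * l = a * v.1 + b * v.2 - d := by rw [hl']; exact hw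
    obtain ⟨-, z3⟩ := var3_BXG (D := a * v.1 + b * v.2 - d) hP2 hc hZ1 hZ2 hZ3 (by linarith)
      (by linarith) hcl.le (by linarith)
    have z4 := dist3_BXG hP2 ha hb hc hX2 hY2 hZ1 hZ3 hI hJ hI0 hJ0 hv1 hv2 hv3 hv4 hcl hl1 hl2
    obtain ⟨-, -, x3, x4⟩ := var12_BXG hP2 ha hX1 hX2 hi hiI hI0 hI hv1 hv2
    obtain ⟨-, -, y3, y4⟩ := var12_BXG hP2 hb hY1 hY2 hj hjJ hJ0 hJ hv3 hv4
    obtain ⟨A1, A2, A3, A4⟩ := point_BXG hA hR hC hM hP2 Q L₁ X v.1 (i + 1) hQ50 hX3 hlX hL1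
      (fun n h1 h2 => (H1 n h1 (by exact_mod_cast h2)).1) x1 x3 x2 x4
    obtain ⟨B1, B2, B3, B4⟩ := point_BXG hA hR hC hM hP2 Q L₂ Y v.2 (j + 1) hQ50 hY3 hlY hL2
      (fun n h1 h2 => (H2 n h1 (by exact_mod_cast h2)).1) y1 y3 y2 y4
    obtain ⟨C1, C2, C3, C4⟩ := point_BXG hA hR hC hM hP2 Q L₃ Z l l₀ hQ50 hZ3 hlZ hL3
      (fun n h1 h2 => (H3 n h1 (by exact_mod_cast h2)).1) z1 z3 z2 z4
    have hB0 : (0 : ℝ) ≤ 4 * P ^ 51 := by positivity
    have h34 : 3 * P ^ 51 ≤ 4 * P ^ 51 := by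
      apply mul_le_mul_of_nonneg_right (by norm_num) (by positivity)
    have hdiff := prod_diff_BXG hB0 B4 C4 (A3.trans h34) (B3.trans h34) A2 B2 C2
    have hnum : 3 * (4 * P ^ 51) ^ 2 * (4 / P ^ 236) ≤ 1 / P ^ 100 := by
      have e : 3 * (4 * P ^ 51) ^ 2 * (4 / P ^ 236) = 192 / P ^ 134 := by
        field_simp
        norm_num
      rw [e, div_le_div_iff₀ (by positivity) (by positivity)]
      calc 192 * P ^ 100 ≤ P * P ^ 100 := by
            apply mul_le_mul_of_nonneg_right _ (by positivity)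
            linarith
        _ = P ^ 101 := by ring
        _ ≤ P ^ 134 := pow_le_pow_right₀ hP1 (by norm_num)
        _ = 1 * P ^ 134 := by ring
    have hre : Gr P Q L₁ v.1 * Gr P Q L₂ v.2 * Gr P Q L₃ l =
        (Gc P Q L₁ v.1 * Gc P Q L₂ v.2 * Gc P Q L₃ l).re := by
      rw [← A1, ← B1, ← C1, ← Complex.ofReal_mul, ← Complex.ofReal_mul, Complex.ofReal_re]
    rw [hre]
    have h5 := Complex.abs_re_le_norm (Gc P Q L₁ v.1 * Gc P Q L₂ v.2 * Gc P Q L₃ l -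
      (∑ e ∈ PS P, wt Q e v.1 * Av e L₁ (i + 1)) * (∑ e ∈ PS P, wt Q e v.2 * Av e L₂ (j + 1)) *
        (∑ e ∈ PS P, wt Q e l * Av e L₃ l₀))
    rw [Complex.sub_re] at h5
    have h6 := neg_abs_le ((Gc P Q L₁ v.1 * Gc P Q L₂ v.2 * Gc P Q L₃ l).re -
      ((∑ e ∈ PS P, wt Q e v.1 * Av e L₁ (i + 1)) * (∑ e ∈ PS P, wt Q e v.2 * Av e L₂ (j + 1)) *
        (∑ e ∈ PS P, wt Q e l * Av e L₃ l₀)).re)
    linarith
  have hsum : (∑ v ∈ Bx a b c d i I j J, (∑ e ∈ PS P, wt Q e v.1 * Av e L₁ (i + 1)) *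
      (∑ e ∈ PS P, wt Q e v.2 * Av e L₂ (j + 1)) *
      (∑ e ∈ PS P, wt Q e (thd a b c d v).toNat * Av e L₃ l₀)).re -
      ((Bx a b c d i I j J).card : ℝ) * (1 / P ^ 100) ≤
      ∑ v ∈ Bx a b c d i I j J, Gr P Q L₁ v.1 * Gr P Q L₂ v.2 * Gr P Q L₃ (thd a b c d v).toNat := by
    rw [Complex.re_sum]
    have : ((Bx a b c d i I j J).card : ℝ) * (1 / P ^ 100) =
        ∑ v ∈ Bx a b c d i I j J, (1 / P ^ 100) := by simp
    rw [this, ← sum_sub_distrib]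
    exact sum_le_sum hpt
  exact num_BXG hC1 hP0 hQ50 hQ49 (by positivity) hτ
    (card_BXG hB a b c i I j J d ha hb hc hAd.2.1 hpos) hsum hFz

end Pool.Agent.Helper93.PB
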